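import Pool.Agent.Helper104.CU.Main
import Pool.Agent.TH295.FO.Arith

set_option autoImplicit false

/-!
Flat bundles on curves, and Fuchsian systems in their direct images on the line.
-/

namespace Pool.Agent.Helper104.CU

open Polynomial Pool.Agent.W432.PC Pool.Agent.W77.IM

universe u v w

/-- A flat bundle `(E, ∇)` on (a part of) a curve, spread out over `Spec R`.

Here `F` is a field containing `R` with an `R`-linear derivation `δ`, and `x ∈ F` with `δ x = 1` (the
function field of a smooth curve `C` over the field of fractions of `R`, with a nonconstant function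
`x` and `δ = d/dx`). `V` is the generic fibre of the bundle, a vector space over `F`, with the
connection `nabla` along `d/dx`, and `E` is a finitely generated module over `R[x, 1/T]` in `V` which is
stable under `nabla`, i.e. the direct image of the spread out bundle over the part `T ≠ 0` of the
line. (The part `T ≠ 0` can contain the branch points of `x` and the singular points of the systems
below, if `E` is stable under `nabla` there.) -/
structure FlatBundle (R : Type u) [CommRing R] (F : Type v) [Field F] [Algebra R F]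
    (V : Type w) [AddCommGroup V] [Module F V] where
  inj : Function.Injective (algebraMap R F)
  δ : Derivation R F F
  x : F
  δ_x : δ x = 1
  T : R[X]
  T_ne : T ≠ 0
  nabla : V →+ V
  leibniz : ∀ (f : F) (v : V), nabla (f • v) = δ f • v + f • nabla v
  E : Submodule (CoordRing x T R) V
  fg : E.FG
  stable : ∀ v ∈ E, nabla v ∈ E

namespace FlatBundle

variable {R : Type u} [CommRing R] {F : Type v} [Field F] [Algebra R F]
  {V : Type w} [AddCommGroup V] [Module F V] (B : FlatBundle R F V)

/-- The `p`-curvature of `E` at the closed point `𝔪` of `Spec R`, whose residue characteristic is the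
prime `p`, is zero: the `p`-th iterate of `∇` along `d/dx` is zero on `E / 𝔪 E`. -/
def VanishesAt (p : ℕ) (𝔪 : Ideal R) : Prop :=
  ∀ v ∈ B.E, B.nabla^[p] v ∈ 𝔪.map (algebraMap R (CoordRing B.x B.T R)) • B.E

/-- Hypothesis (H), expressed by the `p`-curvatures: they are zero on a dense open subset of
`Spec R`. -/
def CondH : Prop :=
  ∃ g : R, g ≠ 0 ∧ ∀ (𝔪 : Ideal R) [𝔪.IsMaximal], g ∉ 𝔪 → ∀ p : ℕ, p.Prime → (p : R) ∈ 𝔪 →
    B.VanishesAt p 𝔪

/-- The direct image of the bundle on the line contains the Fuchsian system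
`d/dx - ∑ j, A j / (x - α j)`: there are elements `e l` of `V`, linearly independent over `R[x]`,
which have nonzero multiples in `E` and on which `∇` acts as the system. For example `V` is the pull
back of the system to the curve (`C → ℙ¹` the map given by `x`), and `e` is the standard basis; or
`C → ℙ¹` is a Galois covering, `V` is equivariant, and `e` is a basis of an isotypic part. -/
def Contains {n r : ℕ} (α : Fin n → R) (A : Fin n → Matrix (Fin r) (Fin r) R) : Prop :=
  ∃ e : Fin r → V,
    (∀ c, B.nabla (e c) =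
      -∑ j, ∑ k, (algebraMap R F (A j k c) / (B.x - algebraMap R F (α j))) • e k) ∧
    (∀ l, ∃ q : R[X], q ≠ 0 ∧ (aeval B.x q : F) • e l ∈ B.E) ∧
    (∀ c : Fin r → R[X], ∑ l, (aeval B.x (c l) : F) • e l = 0 → c = 0)

variable {B} [IsDomain R] [CharZero R] {n r : ℕ} {α : Fin n → R}
  {A : Fin n → Matrix (Fin r) (Fin r) R}

theorem Contains.pcurv (hB : B.Contains α A) :
    ∃ g : R, g ≠ 0 ∧ ∀ (𝔪 : Ideal R) [𝔪.IsMaximal], g ∉ 𝔪 → ∀ p : ℕ, p.Prime → (p : R) ∈ 𝔪 →
      B.VanishesAt p 𝔪 → PCurvZeroAt α A 𝔪 := by
  obtain ⟨e, he, heE, hind⟩ := hB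
  exact pcurv_of_lattice B.inj B.δ B.x B.δ_x B.nabla B.leibniz B.T B.T_ne B.E B.fg α A e he heE hind

theorem Contains.condII [Algebra.FiniteType ℤ R] (hB : B.Contains α A) (h : B.CondH) :
    CondII α A := by
  obtain ⟨g, hg, h1⟩ := hB.pcurv
  obtain ⟨g', hg', h2⟩ := h
  refine ⟨g * g', mul_ne_zero hg hg', fun 𝔪 h𝔪 hgm => ?_⟩
  obtain ⟨p, hp, hpm⟩ := Pool.Agent.TH295.FO.exists_residue_char 𝔪
  have hgm1 : g ∉ 𝔪 := fun h => hgm (𝔪.mul_mem_right _ h)
  have hgm2 : g' ∉ 𝔪 := fun h => hgm (𝔪.mul_mem_left _ h)
  exact h1 𝔪 hgm1 p hp hpm (h2 𝔪 hgm2 p hp hpm)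

end FlatBundle

end Pool.Agent.Helper104.CU
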