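import Pool.Agent.Helper104.CU.Vec

set_option autoImplicit false

/-!
Vanishing `p`-curvatures of a lattice which contains a Fuchsian system up to isogeny.
-/

namespace Pool.Agent.Helper104.CU

open Polynomial Pool.Agent.W432.PC Pool.Agent.W77.IM Pool.Agent.TH295.FO

section red

variable {k : Type*} [Field k] {n r : ℕ} (α : Fin n → k) (A : Fin n → Matrix (Fin r) (Fin r) k)

/-- the connection as an additive map -/
noncomputable def nab : (Fin r → RatFunc k) →+ (Fin r → RatFunc k) where
  toFun := nabla α A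
  map_zero' := by
    ext1 i
    simp [nabla]
  map_add' := by
    intro y z
    ext1 i
    simp only [nabla, Pi.add_apply, map_add, Matrix.mulVec_add]
    ring

lemma nab_smul (f : RatFunc k) (y : Fin r → RatFunc k) :
    nab α A (f • y) = ddx k f • y + f • nab α A y := by
  ext1 i
  change ddx k (f * y i) - (G α A).mulVec (f • y) i =
    ddx k f * y i + f * (ddx k (y i) - (G α A).mulVec y i)
  rw [(ddx k).leibniz, Matrix.mulVec_smul, Pi.smul_apply, smul_eq_mul, smul_eq_mul, smul_eq_mul]
  ring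

theorem pCurvZero_of_qv {p : ℕ} (hp : p.Prime) [CharP k p] (q : k[X]) (hq : q ≠ 0)
    (h : ∀ c l, qv α A (Pi.single c q) p l = 0) : PCurvZero α A := by
  have : CharP (RatFunc k) p := charP_of_injective_algebraMap
    (algebraMap k (RatFunc k)).injective p
  apply pCurvZero_of_Q α A hp
  ext1 l c
  have hinj := IsFractionRing.injective k[X] (RatFunc k)
  have hT : algebraMap k[X] (RatFunc k) (T α) ≠ 0 := by
    rw [Ne, map_eq_zero_iff _ hinj]
    exact T_ne
  have hq' : algebraMap k[X] (RatFunc k) q ≠ 0 := by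
    rw [Ne, map_eq_zero_iff _ hinj]
    exact hq
  have hxα : ∀ j, (RatFunc.X : RatFunc k) - algebraMap k (RatFunc k) (α j) ≠ 0 := by
    intro j
    have h2 : (algebraMap k[X] (RatFunc k) (X - C (α j))) ≠ 0 := by
      rw [Ne, map_eq_zero_iff _ hinj]
      exact X_sub_C_ne_zero _
    rwa [map_sub, RatFunc.algebraMap_X, RatFunc.algebraMap_C] at h2
  have he : ∀ c : Fin r, nab α A (Pi.single c 1) =
      -∑ j, ∑ k', (algebraMap k (RatFunc k) (A j k' c) /
        (RatFunc.X - algebraMap k (RatFunc k) (α j))) •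
          (Pi.single k' 1 : Fin r → RatFunc k) := by
    intro c
    ext1 i
    change ddx k ((Pi.single c 1 : Fin r → RatFunc k) i) -
      (G α A).mulVec (Pi.single c 1) i = _
    rw [Matrix.mulVec_single_one, Matrix.col_apply, Pi.neg_apply, Finset.sum_apply]
    have h1 : ddx k ((Pi.single c 1 : Fin r → RatFunc k) i) = 0 := by
      by_cases hic : i = c
      · subst hic; rw [Pi.single_eq_same]; exact (ddx k).map_one_eq_zero
      · rw [Pi.single_eq_of_ne hic]; exact map_zero _
    rw [h1, zero_sub]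
    congr 1
    unfold G
    rw [Matrix.sum_apply]
    refine Finset.sum_congr rfl fun j _ => ?_
    rw [Finset.sum_apply, Finset.sum_eq_single i]
    · rw [Pi.smul_apply, Pi.single_eq_same, Matrix.smul_apply, Matrix.map_apply, smul_eq_mul,
        smul_eq_mul, mul_one, div_eq_mul_inv, mul_comm]
      rfl
    · intro b _ hb
      rw [Pi.smul_apply, Pi.single_eq_of_ne hb.symm, smul_zero]
    · intro hni; exact absurd (Finset.mem_univ i) hni
  have hit := iterate_vec (R := k) (ddx k) RatFunc.X (ddx_X k) (nab α A) (nab_smul α A) α A hxα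
    (fun c => Pi.single c 1) he (Pi.single c q) p
  have hz : ∑ l', (aeval (RatFunc.X : RatFunc k) (qv α A (Pi.single c q) p l')) •
      (Pi.single l' 1 : Fin r → RatFunc k) = 0 := by
    refine Finset.sum_eq_zero fun l' _ => ?_
    rw [h, map_zero, zero_smul]
  rw [hz, RatFunc.aeval_X_left_eq_algebraMap] at hit
  have h2 : ∑ l', (aeval (RatFunc.X : RatFunc k) ((Pi.single c q : Fin r → k[X]) l')) •
      (Pi.single l' 1 : Fin r → RatFunc k) =
      algebraMap k[X] (RatFunc k) q • (Pi.single c 1 : Fin r → RatFunc k) := by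
    rw [Finset.sum_eq_single c]
    · rw [Pi.single_eq_same, RatFunc.aeval_X_left_eq_algebraMap]
    · intro b _ hb
      rw [Pi.single_eq_of_ne hb, map_zero, zero_smul]
    · intro hni; exact absurd (Finset.mem_univ c) hni
  rw [h2] at hit
  have h3 := (smul_eq_zero.1 hit).resolve_left (pow_ne_zero _ hT)
  obtain ⟨v, hv⟩ := pleib (A := RatFunc k) (fun f => ddx k f) (nab α A) (nab_smul α A) hp
    (algebraMap k[X] (RatFunc k) q) (Pi.single c 1 : Fin r → RatFunc k)
  have h4 : (fun f => ddx k f)^[p] (algebraMap k[X] (RatFunc k) q) = 0 := ddx_iter_p hp _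
  have h5 : p • v = 0 := by
    rw [← Nat.cast_smul_eq_nsmul (RatFunc k), CharP.cast_eq_zero, zero_smul]
  rw [h4, h5, zero_smul, zero_add, add_zero, h3] at hv
  have h6 := (smul_eq_zero.1 hv.symm).resolve_left hq'
  have h7 := nabla_iterate (α := α) (A := A) c p l
  have h8 : (nabla α A)^[p] (Pi.single c 1) = 0 := h6
  rw [h8, Pi.zero_apply, mul_zero] at h7
  rw [Matrix.zero_apply]
  exact (map_eq_zero_iff _ hinj).mp h7.symm

end red

section lat

variable {R F V : Type*} [CommRing R] [IsDomain R] [CharZero R] [Field F] [Algebra R F]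

lemma aeval_ne (hRF : Function.Injective (algebraMap R F)) (δ : Derivation R F F) (x : F)
    (hx : δ x = 1) (q : R[X]) (hq : q ≠ 0) : (aeval x q : F) ≠ 0 := by
  induction hn : q.natDegree using Nat.strong_induction_on generalizing q with
  | _ m ih =>
    intro h0
    by_cases hd : q.natDegree = 0
    · rw [eq_C_of_natDegree_eq_zero hd, aeval_C, map_eq_zero_iff _ hRF] at h0
      apply hq
      rw [eq_C_of_natDegree_eq_zero hd, h0, C_0]
    · have hder : derivative q ≠ 0 := by
        intro h1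
        exact hd (Polynomial.derivative_eq_zero.1 h1)
      refine ih _ ?_ (derivative q) hder rfl ?_
      · rw [← hn]
        exact natDegree_derivative_lt hd
      · rw [← aeval_deriv δ x hx, h0, map_zero]

variable [AddCommGroup V] [Module F V]

omit [IsDomain R] [CharZero R] [AddCommGroup V] [Module F V] in
lemma aeval_mem (x : F) (T₀ f : R[X]) : (aeval x f : F) ∈ CoordRing x T₀ R := by
  have hx : x ∈ CoordRing x T₀ R := Algebra.subset_adjoin (Set.mem_insert _ _)
  have h := Subalgebra.aeval_coe (CoordRing x T₀ R) ⟨x, hx⟩ f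
  rw [h]
  exact SetLike.coe_mem _

theorem pcurv_of_lattice (hRF : Function.Injective (algebraMap R F)) (δ : Derivation R F F)
    (x : F) (hx : δ x = 1) (nabla : V →+ V)
    (hnabla : ∀ (f : F) (v : V), nabla (f • v) = δ f • v + f • nabla v) (T₀ : R[X]) (hT₀ : T₀ ≠ 0)
    (E : Submodule (CoordRing x T₀ R) V) (hfg : E.FG) {n r : ℕ} (α : Fin n → R)
    (A : Fin n → Matrix (Fin r) (Fin r) R) (e : Fin r → V) (he : ∀ c, nabla (e c) =
      -∑ j, ∑ k, (algebraMap R F (A j k c) / (x - algebraMap R F (α j))) • e k)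
    (heE : ∀ l, ∃ q : R[X], q ≠ 0 ∧ (aeval x q : F) • e l ∈ E)
    (hind : ∀ c : Fin r → R[X], ∑ l, (aeval x (c l) : F) • e l = 0 → c = 0) :
    ∃ g : R, g ≠ 0 ∧ ∀ (𝔪 : Ideal R) [𝔪.IsMaximal], g ∉ 𝔪 → ∀ p : ℕ, p.Prime → (p : R) ∈ 𝔪 →
      (∀ v ∈ E, nabla^[p] v ∈ 𝔪.map (algebraMap R (CoordRing x T₀ R)) • E) →
      PCurvZeroAt α A 𝔪 := by
  classical
  have hne := aeval_ne hRF δ x hx
  have hxα : ∀ j, x - algebraMap R F (α j) ≠ 0 := by
    intro j
    have h := hne (X - C (α j)) (X_sub_C_ne_zero _)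
    rwa [map_sub, aeval_X, aeval_C] at h
  choose q hq hqE using heE
  set qq : R[X] := ∏ l, q l with hqq
  have hqq0 : qq ≠ 0 := Finset.prod_ne_zero_iff.2 fun l _ => hq l
  have hmem : ∀ (f : R[X]) (v : V), v ∈ E → (aeval x f : F) • v ∈ E := fun f v hv =>
    E.smul_mem (⟨aeval x f, aeval_mem x T₀ f⟩ : CoordRing x T₀ R) hv
  have hqqE : ∀ l, (aeval x qq : F) • e l ∈ E := by
    intro l
    have h1 : qq = (∏ l' ∈ Finset.univ.erase l, q l') * q l := by
      rw [hqq, Finset.prod_erase_mul _ _ (Finset.mem_univ l)]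
    rw [h1, map_mul, mul_smul]
    exact hmem _ _ (hqE l)
  obtain ⟨m, s, hs⟩ := Submodule.fg_iff_exists_fin_generating_family.1 hfg
  -- the field of fractions of `R[x]`
  let K₁ := FractionRing R[X]
  have hinj : Function.Injective ((aeval x : R[X] →ₐ[R] F) : R[X] →+* F) := by
    rw [injective_iff_map_eq_zero]
    intro a ha
    by_contra h0
    exact hne a h0 ha
  let η : K₁ →+* F := IsFractionRing.lift (A := R[X]) (K := K₁) hinj
  have hη : ∀ f : R[X], η (algebraMap R[X] K₁ f) = aeval x f := fun f =>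
    IsFractionRing.lift_algebraMap hinj f
  let _ : Module K₁ V := Module.compHom V η
  have hsm : ∀ (f : K₁) (u : V), f • u = η f • u := fun _ _ => rfl
  have hli : LinearIndependent K₁ e := by
    rw [Fintype.linearIndependent_iff]
    intro c hc
    obtain ⟨b, hb⟩ := IsLocalization.exist_integer_multiples_of_finite (nonZeroDivisors R[X]) c
    choose c' hc' using hb
    have h1 : c' = 0 := by
      apply hind
      have h2 : ∀ l, (aeval x (c' l) : F) • e l = (aeval x (b : R[X]) : F) • (c l • e l) := by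
        intro l
        rw [hsm, smul_smul, ← hη, hc', Algebra.smul_def, map_mul, hη]
      rw [Finset.sum_congr rfl fun l _ => h2 l, ← Finset.smul_sum, hc, smul_zero]
    intro l
    have h3 := hc' l
    rw [h1, Pi.zero_apply, map_zero, Algebra.smul_def] at h3
    refine (mul_eq_zero.1 h3.symm).resolve_left fun h4 => ?_
    exact nonZeroDivisors.ne_zero b.2
      ((map_eq_zero_iff _ (IsFractionRing.injective R[X] K₁)).1 h4)
  obtain ⟨ψ, hψ⟩ := LinearMap.exists_leftInverse_of_injective
    (Fintype.linearCombination K₁ e)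
    (LinearMap.ker_eq_bot.2 hli.fintypeLinearCombination_injective)
  have hψe : ∀ c : Fin r → K₁, ψ (∑ l, c l • e l) = c := by
    intro c
    have := LinearMap.congr_fun hψ c
    rw [LinearMap.comp_apply, Fintype.linearCombination_apply, LinearMap.id_apply] at this
    exact this
  obtain ⟨d, hd⟩ := IsLocalization.exist_integer_multiples_of_finite (nonZeroDivisors R[X])
    (fun il : Fin m × Fin r => ψ (s il.1) il.2)
  choose D hD using hd
  have hd0 : (d : R[X]) ≠ 0 := nonZeroDivisors.ne_zero d.2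
  refine ⟨(d : R[X]).leadingCoeff * T₀.leadingCoeff * qq.leadingCoeff, mul_ne_zero (mul_ne_zero
    (leadingCoeff_ne_zero.2 hd0) (leadingCoeff_ne_zero.2 hT₀)) (leadingCoeff_ne_zero.2 hqq0), ?_⟩
  intro 𝔪 h𝔪 hg p hp hpm hcurv
  have hgd : (d : R[X]).leadingCoeff ∉ 𝔪 := fun h =>
    hg (𝔪.mul_mem_right _ (𝔪.mul_mem_right _ h))
  have hgT : T₀.leadingCoeff ∉ 𝔪 := fun h => hg (𝔪.mul_mem_right _ (𝔪.mul_mem_left _ h))
  have hgq : qq.leadingCoeff ∉ 𝔪 := fun h => hg (𝔪.mul_mem_left _ h)
  let _ : Field (R ⧸ 𝔪) := Ideal.Quotient.field 𝔪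
  have hmapne : ∀ f : R[X], f.leadingCoeff ∉ 𝔪 → f.map (Ideal.Quotient.mk 𝔪) ≠ 0 := by
    intro f hf h0
    have h1 := congrArg (fun q => q.coeff f.natDegree) h0
    simp only [coeff_map, coeff_zero, coeff_natDegree] at h1
    exact hf (Ideal.Quotient.eq_zero_iff_mem.mp h1)
  have hchar : CharP (R ⧸ 𝔪) p := by
    refine (CharP.charP_iff_prime_eq_zero hp).2 ?_
    have : ((p : ℕ) : R ⧸ 𝔪) = Ideal.Quotient.mk 𝔪 (p : R) := by simp
    rw [this]
    exact Ideal.Quotient.eq_zero_iff_mem.2 hpm
  change PCurvZero (fun j => Ideal.Quotient.mk 𝔪 (α j)) (fun j => (A j).map (Ideal.Quotient.mk 𝔪))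
  refine pCurvZero_of_qv _ _ hp (qq.map (Ideal.Quotient.mk 𝔪)) (hmapne qq hgq) ?_
  intro c
  have hT₀' : (aeval x T₀ : F) ≠ 0 := hne _ hT₀
  set y : Fin r → R[X] := Pi.single c qq with hy
  have hsum : ∑ l, (aeval x (y l) : F) • e l = (aeval x qq : F) • e c := by
    rw [Finset.sum_eq_single c]
    · rw [hy, Pi.single_eq_same]
    · intro b _ hb
      rw [hy, Pi.single_eq_of_ne hb, map_zero, zero_smul]
    · intro hni; exact absurd (Finset.mem_univ c) hni
  have hit := iterate_vec δ x hx nabla hnabla α A hxα e he y p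
  rw [hsum] at hit
  have h1 : (aeval x (T α) : F) ^ p • nabla^[p] ((aeval x qq : F) • e c) ∈
      𝔪.map (algebraMap R (CoordRing x T₀ R)) • E := by
    have h2 := hcurv _ (hqqE c)
    rw [← map_pow]
    exact Submodule.smul_mem _ (⟨aeval x (T α ^ p), aeval_mem x T₀ _⟩ : CoordRing x T₀ R) h2
  obtain ⟨N, f, hf, hrep⟩ := rep_of_mem_smul (R₀ := R) hT₀' hs.symm 𝔪 h1
  rw [hit, Finset.smul_sum] at hrep
  have h3 : ∀ l, (d : R[X]) * (T₀ ^ N * qv α A y p l) = ∑ i, f i * D (i, l) := by
    intro l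
    have h4 : ∑ l, (algebraMap R[X] K₁ (T₀ ^ N * qv α A y p l)) • e l =
        ∑ i, (algebraMap R[X] K₁ (f i)) • s i := by
      simp only [hsm, hη, map_mul, map_pow, mul_smul]
      exact hrep
    have h5 := congrArg (fun v => ψ v l) h4
    simp only [hψe, map_sum, map_smul, Finset.sum_apply, Pi.smul_apply, smul_eq_mul] at h5
    apply IsFractionRing.injective R[X] K₁
    rw [map_mul, h5, Finset.mul_sum, map_sum]
    refine Finset.sum_congr rfl fun i _ => ?_
    have h6 := hD (i, l)
    rw [Algebra.smul_def] at h6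
    rw [map_mul, h6]
    change _ = _ * (algebraMap R[X] K₁ d * _)
    ring
  intro l
  have h7 : (qv α A y p l).map (Ideal.Quotient.mk 𝔪) = 0 := by
    have h8 := congrArg (Polynomial.map (Ideal.Quotient.mk 𝔪)) (h3 l)
    have h9 : ∀ i, (f i).map (Ideal.Quotient.mk 𝔪) = 0 := by
      intro i
      ext j
      rw [coeff_map, coeff_zero]
      exact Ideal.Quotient.eq_zero_iff_mem.2 (hf i j)
    rw [Polynomial.map_mul, Polynomial.map_mul, Polynomial.map_pow, Polynomial.map_sum,
      Finset.sum_eq_zero fun i _ => by rw [Polynomial.map_mul, h9, zero_mul]] at h8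
    exact (mul_eq_zero.1 ((mul_eq_zero.1 h8).resolve_left (hmapne _ hgd))).resolve_left
      (pow_ne_zero _ (hmapne _ hgT))
  rw [qv_map] at h7
  have h10 : (fun l => (y l).map (Ideal.Quotient.mk 𝔪)) =
      Pi.single c (qq.map (Ideal.Quotient.mk 𝔪)) := by
    funext l
    by_cases hlc : l = c
    · subst hlc
      rw [hy, Pi.single_eq_same, Pi.single_eq_same]
    · rw [hy, Pi.single_eq_of_ne hlc, Pi.single_eq_of_ne hlc, Polynomial.map_zero]
  rw [h10] at h7
  exact h7

end lat

end Pool.Agent.Helper104.CU
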