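import Pool.Agent.Helper104.CU.Lattice
import Pool.Agent.Helper104.ER.Sys
import Pool.Agent.TH295.FO.Pgl
import Pool.Agent.TH295.FO.Rat

set_option autoImplicit false

/-!
Flat bundles on curves whose direct image on the line contains a Fuchsian system.
-/

namespace Pool.Agent.Helper104.CU

open Polynomial Pool.Agent.W432.PC Pool.Agent.W77.IM Pool.Agent.TH295.FO

universe u

theorem qAll_of_condII {R : Type u} [CommRing R] {n r : ℕ} {α : Fin n → R}
    {A : Fin n → Matrix (Fin r) (Fin r) R} (h : CondII α A) : QAll α A := by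
  obtain ⟨g, hg, hc⟩ := h
  refine ⟨g, hg, fun 𝔪 h𝔪 hgm p hp hpm => ?_⟩
  have hch : CharP (R ⧸ 𝔪) p := charP_quot' 𝔪 hp hpm
  have h1 := hc 𝔪 hgm
  let ifld : Field (R ⧸ 𝔪) := Ideal.Quotient.field 𝔪
  have h2 : ringChar (R ⧸ 𝔪) = p := ringChar.eq (R ⧸ 𝔪) p
  have h3 := Q_eq_zero_of_pCurvZero (k := R ⧸ 𝔪) h1
  rwa [h2] at h3

theorem rational_of_condII {R : Type u} [CommRing R] [IsDomain R] [CharZero R]
    [Algebra.FiniteType ℤ R] {n r : ℕ} (hn : 0 < n) {α : Fin n → R}
    (hα : ∀ i j, i ≠ j → IsUnit (α i - α j)) {A : Fin n → Matrix (Fin r) (Fin r) R}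
    (h : CondII α A) :
    ∃ lam : Fin (n + 1) → Fin r → ℚ, (∀ j : Fin n, HasExponents (A j) (lam j.castSucc)) ∧
      HasExponents (∑ j, A j) (fun l => -lam (Fin.last n) l) := by
  have hQ := qAll_of_condII h
  have hlam : ∀ j, ∃ lam : Fin r → ℚ, HasExponents (A j) lam := fun j => by
    obtain ⟨g, hg, h⟩ := qAll_residue hα hQ j
    exact hasExponents_of_residues (A j) hg h
  choose lam hlam using hlam
  obtain ⟨g, hg, hinf⟩ := qAll_infinity hn hQ
  obtain ⟨phi, hphi⟩ := hasExponents_of_residues (∑ j, A j) hg hinf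
  refine ⟨Fin.snoc (α := fun _ => Fin r → ℚ) lam (fun l => -phi l), fun j => ?_, ?_⟩
  · rw [Fin.snoc_castSucc]
    exact hlam j
  · have h1 : (fun l => -(Fin.snoc (α := fun _ => Fin r → ℚ) lam (fun l => -phi l) :
        Fin (n + 1) → Fin r → ℚ) (Fin.last n) l) = phi := by
      funext l
      rw [Fin.snoc_last, neg_neg]
    rw [h1]
    exact hphi

end Pool.Agent.Helper104.CU
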