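import Pool.Agent.Helper104.CU.Bundle
import Pool.Agent.Helper104.PCV.Explicit

set_option autoImplicit false

/-!
Systems of rank two: explicit density.
-/

namespace Pool.Agent.Helper104.CU

open Polynomial Pool.Agent.W432.PC Pool.Agent.Y227.SS Pool.Agent.Y227.RT Pool.Agent.Helper104.PCV

universe u

theorem sys_units {R : Type u} [CommRing R] [IsDomain R] [CharZero R] [Algebra.FiniteType ℤ R]
    {n : ℕ} (α : Fin n → R) (hα : ∀ i j, i ≠ j → IsUnit (α i - α j))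
    (A : Fin n → Matrix (Fin 2) (Fin 2) R) (lam : Fin n → Fin 2 → ℚ) (phi : Fin 2 → ℚ)
    (hlam : ∀ j, HasExponents (A j) (lam j)) (hphi : HasExponents (∑ j, A j) phi)
    (N : ℕ) (hN : 0 < N) (hNlam : ∀ j l, ∃ m : ℤ, (N : ℚ) * lam j l = m)
    (hNphi : ∀ l, ∃ m : ℤ, (N : ℚ) * phi l = m)
    (S : Finset (Option (Fin n))) (hS : ∀ x, x ∈ S ↔ ¬ ∃ z : ℤ, theta lam phi x = z)
    (hne : S.Nonempty)
    (hrel : ∀ j : Option (Fin n) → ℤ, (∃ x ∈ S, j x ≠ 0) → (∀ x ∈ S, |j x| ≤ S.card) →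
      ((∀ x ∈ S, Even (j x)) ∨ ∀ x ∈ S, Odd (j x)) →
        ¬ Squarefree (∑ x ∈ S, j x * theta lam phi x).den ∨
        (S.card + 1) ^ 2 * S.card ^ (S.card + 1) ≤
          (∑ x ∈ S, j x * theta lam phi x).den.totient) :
    BadClasses α A N (1 / (((S.card + 1) ^ 2 * S.card ^ (S.card + 1) : ℕ) : ℝ)) 1 ∧
      ¬ CondII α A := by
  classical
  have : NeZero N := ⟨hN.ne'⟩
  obtain ⟨U, hU, hns⟩ := not_semistable_units lam phi hNlam hNphi S hS hne hrel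
  have hC0 : 0 < (S.card + 1) ^ 2 * S.card ^ (S.card + 1) := by
    have := hne.card_pos
    positivity
  have hCR : (0 : ℝ) < (((S.card + 1) ^ 2 * S.card ^ (S.card + 1) : ℕ) : ℝ) := by
    exact_mod_cast hC0
  have hden : 1 / (((S.card + 1) ^ 2 * S.card ^ (S.card + 1) : ℕ) : ℝ) * N.totient ≤ U.card := by
    rw [one_div, inv_mul_le_iff₀ hCR]
    exact_mod_cast hU
  have hbad : BadClasses α A N (1 / (((S.card + 1) ^ 2 * S.card ^ (S.card + 1) : ℕ) : ℝ))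
      (∏ u ∈ U, (fun _ => (1 : R)) u) := by
    refine collect' α A N hN _ U hden (fun _ => (1 : R)) fun u hu =>
      ⟨(((u : ZMod N).val : ℕ) : ℤ), ?_, ?_⟩
    · push_cast
      rw [ZMod.natCast_zmod_val]
    · obtain ⟨P₀, hP₀⟩ := (final α hα A lam phi hlam hphi N hN hNlam hNphi
        (((u : ZMod N).val : ℕ) : ℤ)).1 (hns u hu)
      exact ⟨P₀, fun p hp hpP hap 𝔪 _ hpm _ => hP₀ p hp hpP hap 𝔪 hpm⟩
  rw [Finset.prod_const_one] at hbad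
  exact ⟨hbad, hbad.not_condII hN (by positivity) one_ne_zero⟩

/-- From systems to bundles. -/
theorem bad_transfer {R : Type u} [CommRing R] [IsDomain R] [CharZero R] [Algebra.FiniteType ℤ R]
    {F : Type*} [Field F] [Algebra R F] {V : Type*} [AddCommGroup V] [Module F V]
    {B : FlatBundle R F V} {n r : ℕ} {α : Fin n → R} {A : Fin n → Matrix (Fin r) (Fin r) R}
    (hB : B.Contains α A) {N : ℕ} {Q : ℕ} (hQ : 0 < Q)
    (h : BadClasses α A N (1 / (Q : ℝ)) 1 ∧ ¬ CondII α A) :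
    (∃ (W : Finset (ZMod N)ˣ) (P₀ : ℕ) (g : R), N.totient ≤ Q * W.card ∧ g ≠ 0 ∧
        ∀ p : ℕ, p.Prime → P₀ < p → (∃ v ∈ W, ((p : ℕ) : ZMod N) = ((v : (ZMod N)ˣ) : ZMod N)) →
          ∀ (𝔪 : Ideal R) [𝔪.IsMaximal], (p : R) ∈ 𝔪 → g ∉ 𝔪 → ¬ B.VanishesAt p 𝔪) ∧
        ¬ B.CondH := by
  have hQR : (0 : ℝ) < Q := by exact_mod_cast hQ
  obtain ⟨⟨W, P₀, h1, h2⟩, h3⟩ := h
  obtain ⟨g, hg, h4⟩ := hB.pcurv
  refine ⟨⟨W, P₀, g, ?_, hg, fun p hp hpP hpv 𝔪 h𝔪 hpm hgm h5 => ?_⟩, fun h => h3 (hB.condII h)⟩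
  · rw [one_div, inv_mul_le_iff₀ hQR] at h1
    exact_mod_cast h1
  · exact h2 p hp hpP hpv 𝔪 hpm (fun h => h𝔪.ne_top ((Ideal.eq_top_iff_one _).2 h))
      (h4 𝔪 hgm p hp hpm h5)

/-- From systems to bundles, for one class. -/
theorem class_transfer {R : Type u} [CommRing R] [IsDomain R] [CharZero R]
    {F : Type*} [Field F] [Algebra R F] {V : Type*} [AddCommGroup V] [Module F V]
    {B : FlatBundle R F V} {n r : ℕ} {α : Fin n → R} {A : Fin n → Matrix (Fin r) (Fin r) R}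
    (hB : B.Contains α A) {N : ℕ} {a : ℤ}
    (h : ∃ P₀ : ℕ, ∀ p : ℕ, p.Prime → P₀ < p → (N : ℤ) ∣ a * p + 1 →
      ∀ (𝔪 : Ideal R) [𝔪.IsMaximal], (p : R) ∈ 𝔪 → ¬ PCurvZeroAt α A 𝔪) :
    ∃ (P₀ : ℕ) (g : R), g ≠ 0 ∧ ∀ p : ℕ, p.Prime → P₀ < p → (N : ℤ) ∣ a * p + 1 →
      ∀ (𝔪 : Ideal R) [𝔪.IsMaximal], (p : R) ∈ 𝔪 → g ∉ 𝔪 → ¬ B.VanishesAt p 𝔪 := by
  obtain ⟨P₀, h1⟩ := h
  obtain ⟨g, hg, h4⟩ := hB.pcurv
  exact ⟨P₀, g, hg, fun p hp hpP hap 𝔪 h𝔪 hpm hgm h5 =>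
    h1 p hp hpP hap 𝔪 hpm (h4 𝔪 hgm p hp hpm h5)⟩

end Pool.Agent.Helper104.CU
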