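import Pool.Agent.TH295.FO.Zero
import Pool.Agent.W77.IM.Lat
import Pool.Agent.W77.IM.PLeib

set_option autoImplicit false

/-!
Vectors in a space with a connection on which the connection acts as a Fuchsian system.
-/

namespace Pool.Agent.Helper104.CU

open Polynomial Pool.Agent.W432.PC Pool.Agent.W77.IM

section vec

variable {R : Type*} [CommRing R] {n r : ℕ} (α : Fin n → R) (A : Fin n → Matrix (Fin r) (Fin r) R)

/-- The polynomial vectors `T ^ i ∇ ^ i y`. -/
noncomputable def qv (y : Fin r → R[X]) : ℕ → Fin r → R[X]
  | 0 => y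
  | i + 1 => fun l => T α * derivative (qv y i l) - (i : R[X]) * derivative (T α) * qv y i l
      - ∑ m, B α A l m * qv y i m

lemma qv_map {S : Type*} [CommRing S] (φ : R →+* S) (y : Fin r → R[X]) (i : ℕ) (l : Fin r) :
    (qv α A y i l).map φ =
      qv (fun j => φ (α j)) (fun j => (A j).map φ) (fun l => (y l).map φ) i l := by
  induction i generalizing l with
  | zero => rfl
  | succ i ih =>
    have hB : ∀ a b, (B α A a b).map φ = B (fun j => φ (α j)) (fun j => (A j).map φ) a b := by
      intro a b
      have h := congrFun (congrFun (B_map φ α A) a) b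
      rw [Matrix.map_apply, coe_mapRingHom] at h
      exact h
    change (T α * derivative (qv α A y i l) - (i : R[X]) * derivative (T α) * qv α A y i l
      - ∑ m, B α A l m * qv α A y i m).map φ = _
    rw [Polynomial.map_sub, Polynomial.map_sub, Polynomial.map_mul, Polynomial.map_mul,
      Polynomial.map_mul, Polynomial.map_sum, Polynomial.map_natCast, ← derivative_map,
      ← derivative_map, T_map, ih]
    change _ = T _ * derivative _ - _ * _ * _ - ∑ m, B _ _ l m * _
    congr 1
    refine Finset.sum_congr rfl fun m _ => ?_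
    rw [Polynomial.map_mul, hB, ih]

end vec

section iter

variable {R F V : Type*} [CommRing R] [Field F] [Algebra R F] [AddCommGroup V] [Module F V]

lemma aeval_deriv (δ : Derivation R F F) (x : F) (hx : δ x = 1) (q : R[X]) :
    δ (aeval x q) = aeval x (derivative q) := by
  rw [Derivation.map_aeval, hx, smul_eq_mul, mul_one]

theorem iterate_vec (δ : Derivation R F F) (x : F) (hx : δ x = 1) (nabla : V →+ V)
    (hnabla : ∀ (f : F) (v : V), nabla (f • v) = δ f • v + f • nabla v) {n r : ℕ} (α : Fin n → R)
    (A : Fin n → Matrix (Fin r) (Fin r) R) (hxα : ∀ j, x - algebraMap R F (α j) ≠ 0)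
    (e : Fin r → V) (he : ∀ c, nabla (e c) =
      -∑ j, ∑ k, (algebraMap R F (A j k c) / (x - algebraMap R F (α j))) • e k)
    (y : Fin r → R[X]) (i : ℕ) :
    (aeval x (T α) : F) ^ i • nabla^[i] (∑ l, (aeval x (y l) : F) • e l) =
      ∑ l, (aeval x (qv α A y i l) : F) • e l := by
  have hB : ∀ c, (aeval x (T α) : F) • nabla (e c) = -∑ k, (aeval x (B α A k c) : F) • e k := by
    intro c
    rw [he, smul_neg, Finset.smul_sum]
    congr 1
    have h1 : ∀ k, (aeval x (B α A k c) : F) =
        ∑ j, (aeval x (Tc α j) : F) * algebraMap R F (A j k c) := by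
      intro k
      unfold B
      simp only [Matrix.sum_apply, Matrix.smul_apply, Matrix.map_apply, smul_eq_mul, map_sum,
        map_mul, aeval_C]
    have h2 : ∀ k, (aeval x (B α A k c) : F) • e k =
        ∑ j, ((aeval x (Tc α j) : F) * algebraMap R F (A j k c)) • e k := by
      intro k
      rw [h1, Finset.sum_smul]
    simp only [h2]
    rw [Finset.sum_comm]
    refine Finset.sum_congr rfl fun j _ => ?_
    rw [Finset.smul_sum]
    refine Finset.sum_congr rfl fun k _ => ?_
    rw [smul_smul]
    congr 1
    have h3 : T α = (X - C (α j)) * Tc α j := by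
      unfold T Tc
      rw [Finset.mul_prod_erase Finset.univ (fun i => X - C (α i)) (Finset.mem_univ j)]
    rw [h3, map_mul, map_sub, aeval_X, aeval_C]
    have := hxα j
    field_simp
  induction i with
  | zero => rw [pow_zero, one_smul]; rfl
  | succ i ih =>
    set v := nabla^[i] (∑ l, (aeval x (y l) : F) • e l) with hv
    set t : F := aeval x (T α) with ht
    have hv' : nabla^[i + 1] (∑ l, (aeval x (y l) : F) • e l) = nabla v := by
      rw [Function.iterate_succ_apply']
    have h1 := congrArg (fun w => t • nabla w) ih
    simp only [map_sum, hnabla] at h1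
    rw [hv']
    have h2 : t • (δ (t ^ i) • v) =
        (i : F) • aeval x (derivative (T α)) • ∑ l, (aeval x (qv α A y i l) : F) • e l := by
      rw [← ih, Derivation.leibniz_pow, ← aeval_deriv δ x hx, ← ht]
      rcases i with _ | i
      · simp
      · rw [Nat.add_sub_cancel, smul_smul, smul_smul, smul_smul, nsmul_eq_mul, smul_eq_mul]
        congr 1
        ring
    have h3 : t ^ (i + 1) • nabla v = t • (δ (t ^ i) • v + t ^ i • nabla v) -
        t • (δ (t ^ i) • v) := by
      rw [smul_add, add_sub_cancel_left, smul_smul, pow_succ, mul_comm]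
    rw [h3, h1, h2]
    have h4 : t • ∑ l, ((δ (aeval x (qv α A y i l)) : F) • e l +
        (aeval x (qv α A y i l) : F) • nabla (e l)) =
        ∑ l, (aeval x (T α * derivative (qv α A y i l)) : F) • e l -
        ∑ l, ∑ k, (aeval x (B α A k l * qv α A y i l) : F) • e k := by
      rw [Finset.smul_sum, ← Finset.sum_sub_distrib]
      refine Finset.sum_congr rfl fun l _ => ?_
      rw [smul_add, aeval_deriv δ x hx, smul_smul, map_mul, ← ht, sub_eq_add_neg]
      congr 1
      rw [smul_comm, hB, smul_neg, Finset.smul_sum]
      congr 1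
      refine Finset.sum_congr rfl fun k _ => ?_
      rw [smul_smul, map_mul, mul_comm]
    rw [h4, Finset.sum_comm, smul_smul, Finset.smul_sum, ← Finset.sum_sub_distrib,
      ← Finset.sum_sub_distrib]
    refine Finset.sum_congr rfl fun l _ => ?_
    rw [← Finset.sum_smul, ← sub_smul, smul_smul, ← sub_smul]
    congr 1
    change _ = (aeval x (T α * derivative (qv α A y i l) -
      (i : R[X]) * derivative (T α) * qv α A y i l - ∑ m, B α A l m * qv α A y i m) : F)
    rw [map_sub, map_sub, map_sum, map_mul (aeval x) ((i : R[X]) * derivative (T α)),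
      map_mul (aeval x) (i : R[X]), map_natCast]
    ring

end iter

end Pool.Agent.Helper104.CU
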